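import Mathlib

/-! A weakly support-preserving endomorphism from a two-adic valuation on the reals. -/

open Finset

namespace Pool.Agent.H.MP_aec1ed_pr

lemma ex_val : ∃ B : ValuationSubring ℝ, B.valuation 2 < 1 := by
  obtain ⟨B, -, h⟩ := Ideal.image_subset_nonunits_valuationSubring (A := (⊥ : Subring ℝ))
    (Ideal.span {2}) fun e => by
      obtain ⟨⟨x, hx⟩, k⟩ := (Ideal.span_singleton_eq_top.1 e).exists_right_inv
      obtain ⟨n, rfl⟩ := Subring.mem_bot.1 hx
      have : (2 : ℝ) * n = 1 := congrArg Subtype.val k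
      have : 2 * n = 1 := by exact_mod_cast this
      omega
  exact ⟨B, h ⟨2, Ideal.mem_span_singleton_self _, rfl⟩⟩

def P := {μ : ℕ →₀ ℝ // (∀ x, 0 ≤ μ x) ∧ ∑ x ∈ μ.support, μ x = 1}

def Conv (μ ν ρ : P) : Prop := ∀ n, ρ.1 n = ∑ x ∈ antidiagonal n, μ.1 x.1 * ν.1 x.2

variable {Γ : Type*} [LinearOrderedCommGroupWithZero Γ] (v : Valuation ℝ Γ)

def Sel (μ : P) (i : ℕ) : Prop :=
  μ.1 i ≠ 0 ∧ (∀ k, v (μ.1 k) ≤ v (μ.1 i)) ∧ ∀ k < i, v (μ.1 k) < v (μ.1 i)

lemma ex (μ : P) : ∃ i, Sel v μ i := by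
  classical
  obtain ⟨j, hj, m⟩ := μ.1.support.exists_max_image (fun k => v (μ.1 k))
    (nonempty_iff_ne_empty.2 fun e => by simpa [e] using μ.2.2)
  have a : ∀ k, v (μ.1 k) ≤ v (μ.1 j) := fun k => by
    by_cases h : μ.1 k = 0
    · simp [h]
    · exact m k (by simpa using h)
  have b : ∃ i, v (μ.1 j) ≤ v (μ.1 i) := ⟨j, le_rfl⟩
  have c := Nat.find_spec b
  refine ⟨Nat.find b, fun e => ?_, fun k => (a k).trans c, fun k l => (not_le.1 (Nat.find_min b l)).trans_le c⟩
  simp [e, Finsupp.mem_support_iff.1 hj] at c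

variable {v}

lemma uniq {μ : P} {i j : ℕ} (hi : Sel v μ i) (hj : Sel v μ j) : i = j := by
  rcases lt_trichotomy i j with l | l | l
  exacts [absurd (hj.2.2 i l) (hi.2.1 j).not_gt, l, absurd (hi.2.2 j l) (hj.2.1 i).not_gt]

lemma add {μ ν ρ : P} (h : Conv μ ν ρ) {i j : ℕ} (hi : Sel v μ i) (hj : Sel v ν j) : Sel v ρ (i + j) := by
  have p : 0 < v (μ.1 i) := zero_lt_iff.2 (by simpa using hi.1)
  have q : 0 < v (ν.1 j) := zero_lt_iff.2 (by simpa using hj.1)
  have lt : ∀ a b, a < i ∨ b < j → v (μ.1 a * ν.1 b) < v (μ.1 i * ν.1 j) := fun a b k => by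
    rw [map_mul, map_mul]
    rcases k with k | k
    exacts [mul_lt_mul_of_lt_of_le_of_nonneg_of_pos (hi.2.2 a k) (hj.2.1 b) zero_le q,
      mul_lt_mul_of_le_of_lt_of_nonneg_of_pos (hi.2.1 a) (hj.2.2 b k) zero_le p]
  have e : v (ρ.1 (i + j)) = v (μ.1 i * ν.1 j) := by
    rw [h]
    exact v.map_sum_eq_of_lt (j := (i, j)) (by simp) fun x hx => lt _ _ (by
      simp only [mem_sdiff, HasAntidiagonal.mem_antidiagonal, mem_singleton, Prod.ext_iff] at hx; omega)
  refine ⟨fun k => ?_, fun k => ?_, fun k l => ?_⟩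
  · rw [k, map_zero, map_mul] at e
    exact (mul_pos p q).ne e
  · rw [e, h]
    exact v.map_sum_le fun x _ => by rw [map_mul, map_mul]; exact mul_le_mul' (hi.2.1 _) (hj.2.1 _)
  · rw [e, h]
    exact v.map_sum_lt (by simp [hi.1, hj.1]) fun x hx => lt _ _ (by have := HasAntidiagonal.mem_antidiagonal.1 hx; omega)

noncomputable def δ (i : ℕ) : P := ⟨Finsupp.single i 1, fun x => by
  rw [Finsupp.single_apply]; split_ifs <;> norm_num, by simp [Finsupp.support_single _ one_ne_zero]⟩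

lemma sup2 {a b : ℝ} (ha : 0 < a) (hb : 0 < b) : (Finsupp.single 0 a + Finsupp.single 1 b : ℕ →₀ ℝ).support = {0, 1} := by
  ext x
  simp only [Finsupp.mem_support_iff, Finsupp.add_apply, Finsupp.single_apply, mem_insert, mem_singleton]
  split_ifs <;> simp_all [ha.ne', hb.ne', eq_comm]

noncomputable def two {a b : ℝ} (ha : 0 < a) (hb : 0 < b) (h : a + b = 1) : P :=
  ⟨Finsupp.single 0 a + Finsupp.single 1 b, fun x => by
    simp only [Finsupp.add_apply, Finsupp.single_apply]; split_ifs <;> positivity, by simp [sup2 ha hb, h]⟩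

theorem main : ∃ Ψ : P → P, (∀ μ ν ρ, Conv μ ν ρ → Conv (Ψ μ) (Ψ ν) (Ψ ρ)) ∧
    (∀ μ, (Ψ μ).1.support ⊆ μ.1.support) ∧
    (∀ β : ℝ, ¬ ∀ μ s, (Ψ μ).1 s =
      μ.1 s * Real.exp (-β * s) / ∑ t ∈ μ.1.support, μ.1 t * Real.exp (-β * t)) ∧
    (¬ ∀ μ (h : μ.1.support.Nonempty), (Ψ μ).1 = Finsupp.single (μ.1.support.max' h) 1) ∧
    ¬ ∀ μ (h : μ.1.support.Nonempty), (Ψ μ).1 = Finsupp.single (μ.1.support.min' h) 1 := by
  obtain ⟨B, hB⟩ := ex_val
  choose σ hσ using ex B.valuation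
  have h2 : (0 : ℝ) < 1 / 2 := by norm_num
  have h3 : (0 : ℝ) < 1 / 3 := by norm_num
  have h4 : (0 : ℝ) < 2 / 3 := by norm_num
  have a : σ (two h2 h2 (by norm_num)) = 0 := uniq (hσ _) ⟨by simp [two], fun k => by
    simp only [two, Finsupp.add_apply, Finsupp.single_apply]; split_ifs <;> first | omega | simp_all, by simp⟩
  have l : B.valuation (2 / 3) < B.valuation (1 / 3) := by
    rw [show (2 / 3 : ℝ) = 1 / 3 * 2 by norm_num, map_mul]
    exact mul_lt_of_lt_one_right (zero_lt_iff.2 (by simp)) hB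
  have b : σ (two h4 h3 (by norm_num)) = 1 := uniq (hσ _) ⟨by simp [two], fun k => by
    simp only [two, Finsupp.add_apply, Finsupp.single_apply]; split_ifs <;> first | omega | simp_all [le_of_lt], fun k hk => by
    obtain rfl : k = 0 := by omega
    simpa [two] using l⟩
  refine ⟨fun μ => δ (σ μ), fun μ ν ρ h n => ?_, fun μ => ?_, fun β k => ?_, fun k => ?_, fun k => ?_⟩
  · simp only [δ, uniq (hσ ρ) (add h (hσ μ) (hσ ν)), Finsupp.single_apply]
    rw [sum_congr rfl (g := fun x => if (σ μ, σ ν) = x then 1 else 0) fun x _ => by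
      simp only [Prod.ext_iff]; split_ifs <;> simp_all, sum_ite_eq]
    simp
  · simpa [δ, Finsupp.support_single _ one_ne_zero] using (hσ μ).1
  · have := k (two h2 h2 (by norm_num)) 1
    simp only [a, δ] at this
    simp only [two, sup2 h2 h2] at this
    simp at this
    exact absurd this (by positivity)
  · have := k (two h2 h2 (by norm_num)) ⟨0, by simp [two]⟩
    simp only [a, δ] at this
    simp [two, sup2, Finsupp.single_left_inj] at this
  · have := k (two h4 h3 (by norm_num)) ⟨0, by simp [two]⟩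
    simp only [b, δ] at this
    simp [two, sup2, Finsupp.single_left_inj] at this

end Pool.Agent.H.MP_aec1ed_pr
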